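import Pool.Agent.W166.Gnp.Thr

set_option autoImplicit false

/-! Lower bounds for the chromatic threshold from constructions, for a graph `H` on any type. -/

namespace Pool.Agent.Y680.CT

open Finset Classical Filter Topology
open Pool.Agent.W166.Gnp hiding thr_lower

theorem thr_lower {ι : Type} (H : SimpleGraph ι) (p : ℕ → ℝ) (hp : ∀ n, 0 < p n ∧ p n ≤ 1)
    (P : (n : ℕ) → (SimpleGraph (Fin n) → Prop) → ℝ)
    (hP : ∀ n A, P n A =
      Pr (allE n) (p n) (fun S => A (SimpleGraph.fromEdgeSet (S : Set (Sym2 (Fin n))))))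
    (d0 : ℝ)
    (hlow : ∀ (C : ℕ) (ε : ℝ), 0 < ε → ∀ᶠ n : ℕ in atTop, Pr (allE n) (p n)
      (fun S => ¬ ∃ G : SimpleGraph (Fin n),
        G ≤ SimpleGraph.fromEdgeSet (S : Set (Sym2 (Fin n))) ∧ ¬ H.IsContained G ∧
        (∀ v, (d0 - ε) * (p n * n) ≤ ((G.neighborSet v).ncard : ℝ)) ∧ ¬ G.Colorable C) ≤ 1 / 4)
    (hpn : Tendsto (fun n : ℕ => p n * (n : ℝ) ^ 2) atTop atTop) :
    d0 ≤ sInf {d : ℝ | 0 < d ∧ ∃ C : ℕ, 0 < C ∧
      Tendsto (fun n : ℕ => P n (fun Γ => ∀ G : SimpleGraph (Fin n), G ≤ Γ → ¬ H.IsContained G →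
                (∀ v, d * p n * n ≤ ((G.neighborSet v).ncard : ℝ)) → G.Colorable C))
        atTop (𝓝 1)} := by
  apply le_csInf
  · refine ⟨4, by norm_num, 1, by norm_num, ?_⟩
    have h1 : ∀ᶠ n : ℕ in atTop, 1 - Real.exp (-(p n * (n : ℝ) ^ 2 / 2)) ≤
        P n (fun Γ => ∀ G : SimpleGraph (Fin n), G ≤ Γ → ¬ H.IsContained G →
                (∀ v, 4 * p n * n ≤ ((G.neighborSet v).ncard : ℝ)) → G.Colorable 1) := by
      filter_upwards [eventually_gt_atTop 0] with n hn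
      rw [hP]
      have h2 := no_large_deg hn (hp n).1 (hp n).2
      have h3 := Pr_not (E := allE n) (p := p n) (fun S => ∃ G : SimpleGraph (Fin n),
        G ≤ SimpleGraph.fromEdgeSet (S : Set (Sym2 (Fin n))) ∧
        ∀ v, 4 * p n * n ≤ ((G.neighborSet v).ncard : ℝ))
      have h4 : Pr (allE n) (p n) (fun S => ¬ ∃ G : SimpleGraph (Fin n),
        G ≤ SimpleGraph.fromEdgeSet (S : Set (Sym2 (Fin n))) ∧
        ∀ v, 4 * p n * n ≤ ((G.neighborSet v).ncard : ℝ)) ≤
        Pr (allE n) (p n) (fun S => ∀ G : SimpleGraph (Fin n),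
          G ≤ SimpleGraph.fromEdgeSet (S : Set (Sym2 (Fin n))) →
          ¬ H.IsContained G → (∀ v, 4 * p n * n ≤ ((G.neighborSet v).ncard : ℝ)) →
          G.Colorable 1) := by
        apply Pr_mono (hp n).1.le (hp n).2
        intro S _ h G hG _ hdeg
        exact absurd ⟨G, hG, hdeg⟩ h
      linarith
    have h2 : ∀ᶠ n : ℕ in atTop,
        P n (fun Γ => ∀ G : SimpleGraph (Fin n), G ≤ Γ → ¬ H.IsContained G →
                (∀ v, 4 * p n * n ≤ ((G.neighborSet v).ncard : ℝ)) → G.Colorable 1) ≤ 1 := by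
      filter_upwards with n
      rw [hP]
      exact Pr_le_one (hp n).1.le (hp n).2 _
    have h3 : Tendsto (fun n : ℕ => 1 - Real.exp (-(p n * (n : ℝ) ^ 2 / 2))) atTop (𝓝 1) := by
      have h4 : Tendsto (fun n : ℕ => Real.exp (-(p n * (n : ℝ) ^ 2 / 2))) atTop (𝓝 0) := by
        apply Real.tendsto_exp_neg_atTop_nhds_zero.comp
        exact hpn.atTop_div_const (by norm_num)
      have h5 := (tendsto_const_nhds (x := (1 : ℝ))).sub h4
      simpa using h5
    exact tendsto_of_tendsto_of_tendsto_of_le_of_le' h3 tendsto_const_nhds h1 h2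
  · rintro d ⟨_, C, _, hlim⟩
    by_contra hd
    rw [not_le] at hd
    have h1 := hlow C (d0 - d) (by linarith)
    have h2 : ∀ᶠ n : ℕ in atTop,
        P n (fun Γ => ∀ G : SimpleGraph (Fin n), G ≤ Γ → ¬ H.IsContained G →
                (∀ v, d * p n * n ≤ ((G.neighborSet v).ncard : ℝ)) → G.Colorable C) ≤ 1 / 4 := by
      filter_upwards [h1] with n h1
      rw [hP]
      refine le_trans ?_ h1
      apply Pr_mono (hp n).1.le (hp n).2
      rintro S _ hA ⟨G, hG1, hG2, hG3, hG4⟩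
      apply hG4
      refine hA G hG1 hG2 (fun v => le_trans (le_of_eq ?_) (hG3 v))
      ring
    have := le_of_tendsto hlim h2
    norm_num at this

end Pool.Agent.Y680.CT
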