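import Mathlib

set_option autoImplicit false

/-! Definitions for the chromatic threshold of cloud-forest graphs in sparse random graphs; they are
those of the starting file `MP_4bfc47_co.Disproof`, for graphs on any finite type. -/

namespace Pool.Agent.Y680.CT.Defs

open Filter Topology

/-- the 2-density: the supremum of `(e(F) - 1) / (v(F) - 2)` over the subgraphs `F` of `H` with at
least three vertices -/
noncomputable def m2 {V : Type} (H : SimpleGraph V) : ℝ :=
  sSup {r : ℝ | ∃ F : H.Subgraph, 3 ≤ F.verts.ncard ∧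
    r = ((F.edgeSet.ncard : ℝ) - 1) / ((F.verts.ncard : ℝ) - 2)}

/-- the neighbours of `v` outside `I`; for `v ∉ I` these are its neighbours in `F = H - I` -/
def nbF {V : Type} (H : SimpleGraph V) (I : Set V) (v : V) : Set V := {w | w ∉ I ∧ H.Adj v w}

/-- `I` is a cloud witnessing that `H` is a cloud-forest graph: `I` is independent, `F = H - I` is a
forest, every edge between `I` and `F` ends at a leaf or an isolated vertex of `F`, and no two
adjacent leaves of `F` both have neighbours in `I`. -/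
structure IsCloud {V : Type} (H : SimpleGraph V) (I : Set V) : Prop where
  independent : ∀ x ∈ I, ∀ y ∈ I, ¬ H.Adj x y
  forest : (H.induce Iᶜ).IsAcyclic
  ends : ∀ x ∈ I, ∀ v, v ∉ I → H.Adj x v → (nbF H I v).ncard = 0 ∨ (nbF H I v).ncard = 1
  leaves : ∀ u v, u ∉ I → v ∉ I → H.Adj u v → (nbF H I u).ncard = 1 → (nbF H I v).ncard = 1 →
    ¬ ((∃ x ∈ I, H.Adj x u) ∧ ∃ y ∈ I, H.Adj y v)

/-- cloud-forest graphs -/
def CloudForest {V : Type} (H : SimpleGraph V) : Prop := ∃ I : Set V, IsCloud H I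

/-- thundercloud-forest graphs: some witnessing cloud meets every odd cycle in at least two
vertices -/
def ThundercloudForest {V : Type} (H : SimpleGraph V) : Prop :=
  ∃ I : Set V, IsCloud H I ∧ ∀ (v : V) (c : H.Walk v v), c.IsCycle → Odd c.length →
    2 ≤ {x | x ∈ I ∧ x ∈ c.support}.ncard

open Classical in
/-- the probability that the random graph `G(n,p)` has the property `A` -/
noncomputable def gnp (n : ℕ) (p : ℝ) (A : SimpleGraph (Fin n) → Prop) : ℝ :=
  ∑ Γ : SimpleGraph (Fin n),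
    if A Γ then p ^ Γ.edgeSet.ncard * (1 - p) ^ (n.choose 2 - Γ.edgeSet.ncard) else 0

/-- the chromatic threshold `δ_χ(H,p)` -/
noncomputable def chromThreshold {V : Type} (H : SimpleGraph V) (p : ℕ → ℝ) : ℝ :=
  sInf {d : ℝ | 0 < d ∧ ∃ C : ℕ, 0 < C ∧ Tendsto (fun n : ℕ => gnp n (p n) (fun Γ =>
    ∀ G : SimpleGraph (Fin n), G ≤ Γ → ¬ H.IsContained G →
      (∀ v, d * p n * n ≤ ((G.neighborSet v).ncard : ℝ)) → G.Colorable C)) atTop (𝓝 1)}

/-- the range of Q1: `max {n^{-1/m₂(H)}, n^{-1/2}} ≪ p ≪ 1` -/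
structure InRange {V : Type} (H : SimpleGraph V) (p : ℕ → ℝ) : Prop where
  prob : ∀ n, 0 < p n ∧ p n ≤ 1
  m2 : Tendsto (fun n : ℕ => (n : ℝ) ^ (-(1 / m2 H)) / p n) atTop (𝓝 0)
  half : Tendsto (fun n : ℕ => (n : ℝ) ^ (-(1 / 2) : ℝ) / p n) atTop (𝓝 0)
  small : Tendsto p atTop (𝓝 0)

end Pool.Agent.Y680.CT.Defs
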