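import Pool.Agent.Y680.CT.HN
import Pool.Agent.Y680.CT.Defs

set_option autoImplicit false

/-! `H_N` is a cloud-forest graph and not a thundercloud-forest graph. -/

namespace Pool.Agent.Y680.CT

open Finset SimpleGraph Pool.Agent.Y680.CT.Defs

/-- a graph with a rank function for which every vertex has at most one neighbour of smaller rank
and none of the same rank is a forest -/
theorem acyclic_of_rank {V : Type} {G : SimpleGraph V} (r : V → ℕ)
    (h1 : ∀ v w, G.Adj v w → r v ≠ r w)
    (h2 : ∀ v w w', G.Adj v w → G.Adj v w' → r w < r v → r w' < r v → w = w') :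
    G.IsAcyclic := by
  classical
  intro u p hp
  obtain ⟨x, hx, hmax⟩ : ∃ x ∈ p.support, ∀ y ∈ p.support, r y ≤ r x := by
    have hne : p.support.toFinset.Nonempty := ⟨u, by simp⟩
    obtain ⟨x, hx, hm⟩ := Finset.exists_max_image p.support.toFinset r hne
    exact ⟨x, by simpa using hx, fun y hy => hm y (by simpa using hy)⟩
  set q := p.rotate x hx with hq
  have hqc : q.IsCycle := hp.rotate hx
  have hnil : ¬ q.Nil := hqc.not_nil
  have ha1 : G.Adj x q.snd := Walk.adj_snd hnil
  have ha2 : G.Adj q.penultimate x := Walk.adj_penultimate hnil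
  have hs1 : q.snd ∈ q.support := Walk.getVert_mem_support _ _
  have hs2 : q.penultimate ∈ q.support := Walk.getVert_mem_support _ _
  have hr1 : r q.snd ≤ r x := hmax _ ((Walk.mem_support_rotate_iff p x hx).1 hs1)
  have hr2 : r q.penultimate ≤ r x := hmax _ ((Walk.mem_support_rotate_iff p x hx).1 hs2)
  have hn1 := h1 _ _ ha1
  have hn2 := h1 _ _ ha2.symm
  exact hqc.snd_ne_penultimate
    (h2 x _ _ ha1 ha2.symm (lt_of_le_of_ne hr1 hn1.symm) (lt_of_le_of_ne hr2 hn2.symm))

theorem no_C4 {V : Type} {H : SimpleGraph V} {I : Set V} (h : (H.induce Iᶜ).IsAcyclic)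
    (a b c d : V) (ha : a ∉ I) (hb : b ∉ I) (hc : c ∉ I) (hd : d ∉ I) (hab : H.Adj a b)
    (hbc : H.Adj b c) (hcd : H.Adj c d) (hda : H.Adj d a) (hac : a ≠ c) (hbd : b ≠ d) :
    False := by
  have hab' : (H.induce Iᶜ).Adj ⟨a, ha⟩ ⟨b, hb⟩ := hab
  have hbc' : (H.induce Iᶜ).Adj ⟨b, hb⟩ ⟨c, hc⟩ := hbc
  have hcd' : (H.induce Iᶜ).Adj ⟨c, hc⟩ ⟨d, hd⟩ := hcd
  have hda' : (H.induce Iᶜ).Adj ⟨d, hd⟩ ⟨a, ha⟩ := hda
  apply h (SimpleGraph.Walk.cons hab' (SimpleGraph.Walk.cons hbc' (SimpleGraph.Walk.cons hcd'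
    (SimpleGraph.Walk.cons hda' SimpleGraph.Walk.nil))))
  have e1 := hab.ne
  have e2 := hbc.ne
  have e3 := hcd.ne
  have e4 := hda.ne
  rw [SimpleGraph.Walk.cons_isCycle_iff]
  refine ⟨?_, ?_⟩
  · rw [SimpleGraph.Walk.isPath_def]
    simp [e2, e3, e4, hbd, e1.symm, hac.symm]
  · simp [e1, e2, hac, hbd, e1.symm, e4.symm]

variable {N : ℕ}

/-- the cloud -/
def K (N : ℕ) : Set (HV N) := Set.range cl

theorem cl_mem (j : Fin N) : cl j ∈ K N := ⟨j, rfl⟩

theorem tt_notMem (b : Bool) : (tt b : HV N) ∉ K N := by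
  rintro ⟨j, h⟩
  exact nomatch h

theorem lf_notMem (l : Bool × Fin N) : lf l ∉ K N := by
  rintro ⟨j, h⟩
  exact nomatch (Sum.inr.inj h)

theorem nb_lf (l : Bool × Fin N) : nbF (HN N) (K N) (lf l) = {tt l.1} := by
  ext w
  constructor
  · rintro ⟨h1, h2⟩
    rcases w with b | l' | j
    · have h3 : b = l.1 := h2
      rw [h3]
      rfl
    · exact absurd h2 id
    · exact absurd (cl_mem j) h1
  · intro h
    have h' : w = tt l.1 := h
    rw [h']
    exact ⟨tt_notMem _, rfl⟩

theorem isCloud_K : IsCloud (HN N) (K N) where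
  independent := by
    rintro _ ⟨j, rfl⟩ _ ⟨j', rfl⟩ h
    exact h
  forest := by
    refine acyclic_of_rank (fun v => match v.1 with
      | Sum.inl false => 0
      | Sum.inl true => 1
      | Sum.inr _ => 2) ?_ ?_
    · rintro ⟨v, hv⟩ ⟨w, hw⟩ h
      have h' : (HN N).Adj v w := h
      rcases v with b | l | j
      · rcases w with c | l' | j'
        · have h3 : b ≠ c := h'
          cases b <;> cases c <;> simp at h3 ⊢
        · cases b <;> simp
        · exact absurd (cl_mem j') hw
      · rcases w with c | l' | j'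
        · cases c <;> simp
        · exact absurd h' id
        · exact absurd (cl_mem j') hw
      · exact absurd (cl_mem j) hv
    · rintro ⟨v, hv⟩ ⟨w, hw⟩ ⟨w', hw'⟩ h h' hr hr'
      have g : (HN N).Adj v w := h
      have g' : (HN N).Adj v w' := h'
      apply Subtype.ext
      show w = w'
      rcases v with b | l | j
      · rcases w with c | l' | j'
        · rcases w' with c' | l'' | j''
          · have h3 : b ≠ c := g
            have h4 : b ≠ c' := g'
            have : c = c' := by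
              cases b <;> cases c <;> cases c' <;> simp at h3 h4 ⊢
            rw [this]
          · cases b <;> simp at hr'
          · exact absurd (cl_mem j'') hw'
        · cases b <;> simp at hr
        · exact absurd (cl_mem j') hw
      · rcases w with c | l' | j'
        · rcases w' with c' | l'' | j''
          · have h3 : c = l.1 := g
            have h4 : c' = l.1 := g'
            rw [h3, h4]
          · exact absurd g' id
          · exact absurd (cl_mem j'') hw'
        · exact absurd g id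
        · exact absurd (cl_mem j') hw
      · exact absurd (cl_mem j) hv
  ends := by
    rintro _ ⟨j, rfl⟩ v hv h
    rcases v with b | l | j'
    · exact absurd h id
    · right
      have := nb_lf l
      unfold lf at this
      rw [this, Set.ncard_singleton]
    · exact absurd (cl_mem j') hv
  leaves := by
    rintro u v hu hv huv _ _ ⟨⟨_, ⟨j, rfl⟩, h1⟩, ⟨_, ⟨j', rfl⟩, h2⟩⟩
    rcases u with b | l | i
    · exact h1
    · rcases v with c | l' | i'
      · exact h2
      · exact huv
      · exact h2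
    · exact h1

theorem two_le_nb {V : Type} [Finite V] {H : SimpleGraph V} {I : Set V} {v a b : V} (hab : a ≠ b)
    (ha : a ∉ I) (hb : b ∉ I) (hva : H.Adj v a) (hvb : H.Adj v b) : 2 ≤ (nbF H I v).ncard := by
  have h1 : ({a, b} : Set V).ncard = 2 := Set.ncard_pair hab
  rw [← h1]
  apply Set.ncard_le_ncard _ (Set.toFinite _)
  intro w hw
  rcases hw with hw | hw
  · rw [hw]; exact ⟨ha, hva⟩
  · rw [Set.mem_singleton_iff.mp hw]; exact ⟨hb, hvb⟩

theorem one_le_nb {V : Type} [Finite V] {H : SimpleGraph V} {I : Set V} {v a : V}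
    (ha : a ∉ I) (hva : H.Adj v a) : 1 ≤ (nbF H I v).ncard := by
  have h1 : ({a} : Set V).ncard = 1 := Set.ncard_singleton a
  rw [← h1]
  apply Set.ncard_le_ncard _ (Set.toFinite _)
  intro w hw
  rw [Set.mem_singleton_iff.mp hw]; exact ⟨ha, hva⟩

/-- the only cloud of `H_N` -/
theorem cloud_unique (hN : 2 ≤ N) {I : Set (HV N)} (h : IsCloud (HN N) I) : I = K N := by
  obtain ⟨i0, hi0⟩ : ∃ i : Fin N, i = ⟨0, by omega⟩ := ⟨_, rfl⟩
  obtain ⟨i1, hi1⟩ : ∃ i : Fin N, i = ⟨1, by omega⟩ := ⟨_, rfl⟩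
  have n01 : i0 ≠ i1 := by
    rw [hi0, hi1]
    intro h
    have := congrArg Fin.val h
    simp at this
  have ncl : ∀ j j' : Fin N, j ≠ j' → (cl j : HV N) ≠ cl j' := fun j j' hj e =>
    hj (Sum.inr.inj (Sum.inr.inj e))
  have nlf : ∀ l l' : Bool × Fin N, l ≠ l' → (lf l : HV N) ≠ lf l' := fun l l' hl e =>
    hl (Sum.inl.inj (Sum.inr.inj e))
  -- two leaves and two cloud vertices are not all outside
  have hC4 : ∀ (l l' : Bool × Fin N) (j j' : Fin N), l ≠ l' → j ≠ j' → lf l ∉ I → lf l' ∉ I →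
      cl j ∉ I → cl j' ∉ I → False := fun l l' j j' hl hj h1 h2 h3 h4 =>
    no_C4 h.forest (lf l) (cl j) (lf l') (cl j') h1 h3 h2 h4 trivial trivial trivial trivial
      (nlf l l' hl) (ncl j j' hj)
  have hlf : ∀ l, lf l ∉ I := by
    intro l hl
    have hcl : ∀ j, cl j ∉ I := fun j hj => h.independent _ hl _ hj trivial
    have hex : ∀ b : Bool, ∃ i : Fin N, lf (b, i) ∈ I := by
      intro b
      by_contra hcon
      push Not at hcon
      exact hC4 (b, i0) (b, i1) i0 i1 (fun e => n01 (congrArg Prod.snd e)) n01 (hcon i0)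
        (hcon i1) (hcl i0) (hcl i1)
    obtain ⟨i, hi⟩ := hex false
    obtain ⟨i', hi'⟩ := hex true
    have h0 : tt false ∉ I := fun h' => h.independent _ h' _ hi rfl
    have h1 : tt true ∉ I := fun h' => h.independent _ h' _ hi' rfl
    have hadj : (HN N).Adj (tt false) (tt true) := by rw [adj_tt]; decide
    have a1 : (nbF (HN N) I (tt false)).ncard = 1 := by
      have g := h.ends _ hi (tt false) h0 rfl
      have g' := one_le_nb h1 hadj
      omega
    have a2 : (nbF (HN N) I (tt true)).ncard = 1 := by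
      have g := h.ends _ hi' (tt true) h1 rfl
      have g' := one_le_nb h0 hadj.symm
      omega
    exact h.leaves _ _ h0 h1 hadj a1 a2 ⟨⟨_, hi, rfl⟩, ⟨_, hi', rfl⟩⟩
  have hcl : ∀ j, cl j ∈ I := by
    obtain ⟨j1, hj1⟩ : ∃ j, cl j ∈ I := by
      by_contra hcon
      push Not at hcon
      exact hC4 (false, i0) (false, i1) i0 i1 (fun e => n01 (congrArg Prod.snd e)) n01 (hlf _)
        (hlf _) (hcon i0) (hcon i1)
    intro j2
    by_contra hj2
    have htt : ∀ b : Bool, tt b ∈ I := by
      intro b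
      by_contra hb
      have g := h.ends _ hj1 (lf (b, i0)) (hlf _) trivial
      have g' := two_le_nb (H := HN N) (I := I) (v := lf (b, i0)) (a := cl j2) (b := tt b)
        (fun e => nomatch e) hj2 hb trivial rfl
      omega
    exact h.independent _ (htt false) _ (htt true) (by rw [adj_tt]; decide)
  have htt : ∀ b : Bool, tt b ∉ I := by
    intro b hb
    have hadj : (HN N).Adj (tt b) (tt (!b)) := by rw [adj_tt]; cases b <;> decide
    have hnb : tt (!b) ∉ I := fun h' => h.independent _ hb _ h' hadj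
    have g := h.ends _ hb (tt (!b)) hnb hadj
    have g' := two_le_nb (H := HN N) (I := I) (v := tt (!b)) (a := lf (!b, i0)) (b := lf (!b, i1))
      (nlf _ _ fun e => n01 (congrArg Prod.snd e)) (hlf _) (hlf _) rfl rfl
    omega
  ext x
  rcases x with b | l | j
  · exact ⟨fun hx => absurd hx (htt b), fun hx => absurd hx (tt_notMem b)⟩
  · exact ⟨fun hx => absurd hx (hlf l), fun hx => absurd hx (lf_notMem l)⟩
  · exact ⟨fun _ => cl_mem j, fun _ => hcl j⟩

theorem cloudForest_HN : CloudForest (HN N) := ⟨K N, isCloud_K⟩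

theorem not_thundercloud (hN : 2 ≤ N) : ¬ ThundercloudForest (HN N) := by
  rintro ⟨I, hI, hcyc⟩
  rw [cloud_unique hN hI] at hcyc
  obtain ⟨i0, hi0⟩ : ∃ i : Fin N, i = ⟨0, by omega⟩ := ⟨_, rfl⟩
  have e1 : (HN N).Adj (cl i0) (lf (false, i0)) := trivial
  have e2 : (HN N).Adj (lf (false, i0)) (tt false) := rfl
  have e3 : (HN N).Adj (tt false) (tt true) := by rw [adj_tt]; decide
  have e4 : (HN N).Adj (tt true) (lf (true, i0)) := rfl
  have e5 : (HN N).Adj (lf (true, i0)) (cl i0) := trivial
  have h := hcyc (cl i0) (SimpleGraph.Walk.cons e1 (SimpleGraph.Walk.cons e2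
    (SimpleGraph.Walk.cons e3 (SimpleGraph.Walk.cons e4 (SimpleGraph.Walk.cons e5
    SimpleGraph.Walk.nil))))) (by
    rw [SimpleGraph.Walk.cons_isCycle_iff]
    refine ⟨?_, ?_⟩
    · rw [SimpleGraph.Walk.isPath_def]
      simp [cl, lf, tt]
    · simp [cl, lf, tt]) (by simp; decide)
  have h2 : {x : HV N | x ∈ K N ∧ x ∈ (SimpleGraph.Walk.cons e1 (SimpleGraph.Walk.cons e2
      (SimpleGraph.Walk.cons e3 (SimpleGraph.Walk.cons e4 (SimpleGraph.Walk.cons e5
      SimpleGraph.Walk.nil))))).support} ⊆ {cl i0} := by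
    rintro x ⟨hx, hxs⟩
    simp only [SimpleGraph.Walk.support_cons, SimpleGraph.Walk.support_nil, List.mem_cons,
      List.not_mem_nil, or_false] at hxs
    rcases hxs with rfl | rfl | rfl | rfl | rfl | rfl
    · rfl
    · exact absurd hx (lf_notMem _)
    · exact absurd hx (tt_notMem _)
    · exact absurd hx (tt_notMem _)
    · exact absurd hx (lf_notMem _)
    · rfl
  have h3 := Set.ncard_le_ncard h2 (Set.toFinite _)
  rw [Set.ncard_singleton] at h3
  omega

end Pool.Agent.Y680.CT
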