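import Pool.Agent.Y680.CT.HN
import Pool.Agent.Y680.CT.Defs

set_option autoImplicit false

/-! The 2-density of `H_N`. -/

namespace Pool.Agent.Y680.CT

open Finset SimpleGraph Pool.Agent.Y680.CT.Defs

theorem case1 (N x y a : ℤ) (hN : 2 ≤ N) (hx0 : 0 ≤ x) (hy0 : 0 ≤ y) (hx : x ≤ N - 1)
    (hy : y ≤ N - 1) (ha : a ≤ x + 1) :
    3 * (a + (x + 1) * (y + 1)) + 4 * (N + 1) ≤ 2 * (N + 1) * (1 + (x + 1) + (y + 1)) + 3 := by
  have g1 := mul_nonneg hx0 (show (0 : ℤ) ≤ N - 1 - y by omega)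
  have g2 := mul_nonneg hy0 (show (0 : ℤ) ≤ N - 1 - x by omega)
  have g3 := mul_nonneg hx0 (show (0 : ℤ) ≤ N - 2 by omega)
  nlinarith [g1, g2, g3]

theorem case2 (N x y a : ℤ) (hN : 2 ≤ N) (hx0 : 0 ≤ x) (hy0 : 0 ≤ y) (hx : x ≤ N)
    (ha : a ≤ N) :
    3 * (a + (2 * N - x) * (N - y)) + 4 * (N + 1) ≤
      2 * (N + 1) * (1 + (2 * N - x) + (N - y)) + 3 := by
  have g2 := mul_nonneg hy0 (show (0 : ℤ) ≤ N - x by omega)
  have g3 := mul_nonneg hx0 (show (0 : ℤ) ≤ N - 2 by omega)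
  have g4 := mul_nonneg hy0 (show (0 : ℤ) ≤ N - 2 by omega)
  nlinarith [g2, g3, g4]

/-- the numerical inequality -/
theorem num_ineq (N T0 T1 a0 a1 m : ℤ) (hN : 2 ≤ N) (hT0 : T0 = 0 ∨ T0 = 1)
    (hT1 : T1 = 0 ∨ T1 = 1) (p0 : 0 ≤ a0) (p1 : 0 ≤ a1) (pm : 0 ≤ m) (q0 : a0 ≤ N)
    (q1 : a1 ≤ N) (qm : m ≤ N) (h3 : 3 ≤ T0 + T1 + a0 + a1 + m) :
    3 * (T0 * T1 + T0 * a0 + T1 * a1 + (a0 + a1) * m) + 4 * (N + 1) ≤
      2 * (N + 1) * (T0 + T1 + a0 + a1 + m) + 3 := by
  obtain ⟨l, hl⟩ : ∃ l, l = a0 + a1 := ⟨_, rfl⟩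
  have hl0 : 0 ≤ l := by omega
  have hl2 : l ≤ 2 * N := by omega
  -- both centres
  have both : 3 * (l + l * m) ≤ 2 * (N + 1) * (l + m) := by
    by_contra hcon
    push Not at hcon
    have h1 := mul_nonneg (mul_nonneg hl0 (sub_nonneg.2 qm)) (show (0 : ℤ) ≤ 2 * N - 1 by omega)
    have h2 := mul_nonneg (mul_nonneg (sub_nonneg.2 hl2) pm) (show (0 : ℤ) ≤ N + 1 by omega)
    have h3 : N * (2 * (N + 1) * (l + m) - 3 * (l + l * m)) =
        l * (N - m) * (2 * N - 1) + (2 * N - l) * m * (N + 1) := by ring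
    have h4 : N * (2 * (N + 1) * (l + m) - 3 * (l + l * m)) < 0 :=
      mul_neg_of_pos_of_neg (by omega) (by omega)
    omega
  -- one centre
  have one : ∀ a : ℤ, 0 ≤ a → a ≤ l → a ≤ N → 2 ≤ l + m →
      3 * (a + l * m) + 4 * (N + 1) ≤ 2 * (N + 1) * (1 + l + m) + 3 := by
    intro a ha hal haN hlm
    rcases eq_or_lt_of_le pm with hm | hm
    · rw [← hm] at hlm ⊢
      nlinarith [mul_nonneg (show (0 : ℤ) ≤ l - 1 by omega) (show (0 : ℤ) ≤ 2 * N - 1 by omega)]
    · rcases eq_or_lt_of_le hl0 with hl' | hl'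
      · have ha0 : a = 0 := by omega
        rw [← hl', ha0]
        rw [← hl'] at hlm
        nlinarith [mul_nonneg (show (0 : ℤ) ≤ m - 1 by omega) (show (0 : ℤ) ≤ N + 1 by omega)]
      · rcases le_total l N with hlN | hlN
        · have g := case1 N (l - 1) (m - 1) a hN (by omega) (by omega) (by omega) (by omega)
            (by omega)
          have e1 : l - 1 + 1 = l := by ring
          have e2 : m - 1 + 1 = m := by ring
          rw [e1, e2] at g
          exact g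
        · have g := case2 N (2 * N - l) (N - m) a hN (by omega) (by omega) (by omega) haN
          have e1 : 2 * N - (2 * N - l) = l := by ring
          have e2 : N - (N - m) = m := by ring
          rw [e1, e2] at g
          exact g
  rcases hT0 with rfl | rfl
  · rcases hT1 with rfl | rfl
    · rw [← hl]
      have h3' : 3 ≤ l + m := by omega
      have goal' : 3 * (l * m) + 4 * (N + 1) ≤ 2 * (N + 1) * (l + m) + 3 := by
        rcases eq_or_lt_of_le pm with hm | hm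
        · rw [← hm] at h3' ⊢
          nlinarith [mul_nonneg (show (0 : ℤ) ≤ l - 3 by omega) (show (0 : ℤ) ≤ N + 1 by omega)]
        · rcases eq_or_lt_of_le hl0 with hl' | hl'
          · rw [← hl'] at h3' ⊢
            nlinarith [mul_nonneg (show (0 : ℤ) ≤ m - 3 by omega) (show (0 : ℤ) ≤ N + 1 by omega)]
          · obtain ⟨x, hx⟩ : ∃ x, l = x + 1 := ⟨l - 1, by ring⟩
            obtain ⟨y, hy⟩ : ∃ y, m = y + 1 := ⟨m - 1, by ring⟩
            have hx0 : 0 ≤ x := by omega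
            have hy0 : 0 ≤ y := by omega
            have g1 := mul_nonneg hx0 (show (0 : ℤ) ≤ N - 1 - y by omega)
            have g2 := mul_nonneg hy0 (show (0 : ℤ) ≤ 2 * N - 1 - x by omega)
            rw [hx, hy]
            nlinarith
      have e1 : (0 : ℤ) * 0 + 0 * a0 + 0 * a1 + l * m = l * m := by ring
      have e2 : (0 : ℤ) + 0 + a0 + a1 + m = l + m := by rw [hl]; ring
      rw [e1, e2]
      exact goal'
    · have g := one a1 p1 (by omega) q1 (by omega)
      rw [← hl]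
      have e1 : (0 : ℤ) * 1 + 0 * a0 + 1 * a1 + l * m = a1 + l * m := by ring
      have e2 : (0 : ℤ) + 1 + a0 + a1 + m = 1 + l + m := by rw [hl]; ring
      rw [e1, e2]
      exact g
  · rcases hT1 with rfl | rfl
    · have g := one a0 p0 (by omega) q0 (by omega)
      rw [← hl]
      have e1 : (1 : ℤ) * 0 + 1 * a0 + 0 * a1 + l * m = a0 + l * m := by ring
      have e2 : (1 : ℤ) + 0 + a0 + a1 + m = 1 + l + m := by rw [hl]; ring
      rw [e1, e2]
      exact g
    · rw [← hl]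
      have e1 : (1 : ℤ) * 1 + 1 * a0 + 1 * a1 + l * m = 1 + (l + l * m) := by rw [hl]; ring
      have e2 : (1 : ℤ) + 1 + a0 + a1 + m = 2 + (l + m) := by rw [hl]; ring
      rw [e1, e2]
      nlinarith [both]

variable {N : ℕ}

open Classical in
theorem sub_bound (hN : 2 ≤ N) (F : (HN N).Subgraph) (hF : 3 ≤ F.verts.ncard) :
    3 * F.edgeSet.ncard + 4 * (N + 1) ≤ 2 * (N + 1) * F.verts.ncard + 3 := by
  set χ : HV N → ℕ := fun x => if x ∈ F.verts then 1 else 0 with hχ
  have hχ1 : ∀ x, χ x ≤ 1 := by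
    intro x; simp only [hχ]; split_ifs <;> omega
  have hv : F.verts.ncard = χ (tt false) + χ (tt true) +
      (∑ i, χ (lf (false, i))) + (∑ i, χ (lf (true, i))) + ∑ j, χ (cl j) := by
    have h1 : F.verts.ncard = (univ.filter (fun x => x ∈ F.verts)).card := by
      rw [← Set.ncard_coe_finset]
      congr 1
      ext x
      simp
    rw [h1, Finset.card_filter, Fintype.sum_sum_type, Fintype.sum_sum_type, Fintype.sum_prod_type,
      Fintype.sum_bool, Fintype.sum_bool]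
    simp only [hχ, tt, lf, cl]
    ring
  have he : F.edgeSet.ncard ≤ χ (tt false) * χ (tt true) + χ (tt false) * (∑ i, χ (lf (false, i)))
      + χ (tt true) * (∑ i, χ (lf (true, i))) +
      ((∑ i, χ (lf (false, i))) + ∑ i, χ (lf (true, i))) * ∑ j, χ (cl j) := by
    have h1 : F.edgeSet ⊆ fe '' {e : EN N | src e ∈ F.verts ∧ tgt e ∈ F.verts} := by
      intro e he
      induction e with
      | _ a b =>
        rw [SimpleGraph.Subgraph.mem_edgeSet] at he
        have ha := F.edge_vert he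
        have hb := F.edge_vert he.symm
        obtain ⟨e, h | h⟩ := fe_surj (F.adj_sub he)
        · exact ⟨e, ⟨h.1 ▸ ha, h.2 ▸ hb⟩, by rw [fe, h.1, h.2]⟩
        · exact ⟨e, ⟨h.1 ▸ hb, h.2 ▸ ha⟩, by rw [fe, h.1, h.2, Sym2.eq_swap]⟩
    have h2 : F.edgeSet.ncard ≤ {e : EN N | src e ∈ F.verts ∧ tgt e ∈ F.verts}.ncard := by
      refine (Set.ncard_le_ncard h1 (Set.toFinite _)).trans ?_
      rw [Set.ncard_image_of_injective _ fe_inj]
    have h3 : {e : EN N | src e ∈ F.verts ∧ tgt e ∈ F.verts}.ncard =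
        ∑ e : EN N, χ (src e) * χ (tgt e) := by
      have h4 : {e : EN N | src e ∈ F.verts ∧ tgt e ∈ F.verts}.ncard =
          (univ.filter (fun e : EN N => src e ∈ F.verts ∧ tgt e ∈ F.verts)).card := by
        rw [← Set.ncard_coe_finset]
        congr 1
        ext x
        simp
      rw [h4, Finset.card_filter]
      apply sum_congr rfl
      intro e _
      simp only [hχ]
      split_ifs <;> simp_all
    rw [h3, Fintype.sum_sum_type, Fintype.sum_sum_type] at h2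
    refine h2.trans (le_of_eq ?_)
    have e1 : (∑ x : Unit, χ (src (Sum.inl x : EN N)) * χ (tgt (Sum.inl x : EN N))) =
        χ (tt false) * χ (tt true) := by
      simp [src, tgt]
    have e2 : (∑ l : Bool × Fin N, χ (src (Sum.inr (Sum.inl l) : EN N)) *
        χ (tgt (Sum.inr (Sum.inl l) : EN N))) =
        χ (tt true) * (∑ i, χ (lf (true, i))) + χ (tt false) * (∑ i, χ (lf (false, i))) := by
      rw [Fintype.sum_prod_type, Fintype.sum_bool, mul_sum, mul_sum]
      rfl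
    have e3 : (∑ q : (Bool × Fin N) × Fin N, χ (src (Sum.inr (Sum.inr q) : EN N)) *
        χ (tgt (Sum.inr (Sum.inr q) : EN N))) =
        ((∑ i, χ (lf (false, i))) + ∑ i, χ (lf (true, i))) * ∑ j, χ (cl j) := by
      have e4 : (∑ q : (Bool × Fin N) × Fin N, χ (src (Sum.inr (Sum.inr q) : EN N)) *
          χ (tgt (Sum.inr (Sum.inr q) : EN N))) =
          ∑ q : (Bool × Fin N) × Fin N, χ (lf q.1) * χ (cl q.2) := rfl
      rw [e4, Fintype.sum_prod_type]
      show (∑ x : Bool × Fin N, ∑ y : Fin N, χ (lf x) * χ (cl y)) = _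
      rw [← Finset.sum_mul_sum]
      congr 1
      rw [Fintype.sum_prod_type, Fintype.sum_bool]
      ring
    rw [e1, e2, e3]
    ring
  have hle : ∀ g : Fin N → HV N, ∑ i, χ (g i) ≤ N := by
    intro g
    calc ∑ i, χ (g i) ≤ ∑ _i : Fin N, 1 := sum_le_sum fun i _ => hχ1 _
      _ = N := by simp
  have ht : ∀ x, (χ x : ℤ) = 0 ∨ (χ x : ℤ) = 1 := by
    intro x
    have := hχ1 x
    omega
  have key := num_ineq N (χ (tt false)) (χ (tt true)) (∑ i, χ (lf (false, i)) : ℕ)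
    (∑ i, χ (lf (true, i)) : ℕ) (∑ j, χ (cl j) : ℕ) (by exact_mod_cast hN) (ht _) (ht _)
    (Int.natCast_nonneg _) (Int.natCast_nonneg _) (Int.natCast_nonneg _)
    (by exact_mod_cast hle _) (by exact_mod_cast hle _) (by exact_mod_cast hle _)
    (by rw [hv] at hF; exact_mod_cast hF)
  have key' : 3 * (χ (tt false) * χ (tt true) + χ (tt false) * (∑ i, χ (lf (false, i)))
      + χ (tt true) * (∑ i, χ (lf (true, i))) +
      ((∑ i, χ (lf (false, i))) + ∑ i, χ (lf (true, i))) * ∑ j, χ (cl j)) + 4 * (N + 1) ≤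
      2 * (N + 1) * (χ (tt false) + χ (tt true) +
      (∑ i, χ (lf (false, i))) + (∑ i, χ (lf (true, i))) + ∑ j, χ (cl j)) + 3 := by
    exact_mod_cast key
  rw [← hv] at key'
  omega

theorem m2_HN (hN : 2 ≤ N) : m2 (HN N) = 2 * ((N : ℝ) + 1) / 3 := by
  have hNr : (2 : ℝ) ≤ N := by exact_mod_cast hN
  have hub : ∀ r ∈ {r : ℝ | ∃ F : (HN N).Subgraph, 3 ≤ F.verts.ncard ∧
      r = ((F.edgeSet.ncard : ℝ) - 1) / ((F.verts.ncard : ℝ) - 2)}, r ≤ 2 * ((N : ℝ) + 1) / 3 := by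
    rintro r ⟨F, hF, rfl⟩
    have h1 := sub_bound hN F hF
    have h2 : 3 * (F.edgeSet.ncard : ℝ) + 4 * (N + 1) ≤ 2 * (N + 1) * F.verts.ncard + 3 := by
      exact_mod_cast h1
    have h3 : (3 : ℝ) ≤ F.verts.ncard := by exact_mod_cast hF
    rw [div_le_div_iff₀ (by linarith) (by norm_num)]
    nlinarith
  have hmem : 2 * ((N : ℝ) + 1) / 3 ∈ {r : ℝ | ∃ F : (HN N).Subgraph, 3 ≤ F.verts.ncard ∧
      r = ((F.edgeSet.ncard : ℝ) - 1) / ((F.verts.ncard : ℝ) - 2)} := by
    have h1 : (⊤ : (HN N).Subgraph).verts.ncard = 3 * N + 2 := by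
      rw [SimpleGraph.Subgraph.verts_top, Set.ncard_univ, Nat.card_eq_fintype_card, card_HV]
    have h2 : (⊤ : (HN N).Subgraph).edgeSet.ncard = 1 + (2 * N + 2 * N * N) := by
      rw [SimpleGraph.Subgraph.edgeSet_top]
      exact edges_HN
    refine ⟨⊤, ?_, ?_⟩
    · rw [h1]; omega
    · rw [h1, h2]
      push_cast
      rw [div_eq_div_iff (by norm_num) (by nlinarith)]
      ring
  unfold m2
  exact le_antisymm (csSup_le ⟨_, hmem⟩ hub) (le_csSup ⟨_, hub⟩ hmem)

end Pool.Agent.Y680.CT
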