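import Pool.Agent.W166.Gnp.Transfer
import Pool.Agent.W166.Gnp.Copies

set_option autoImplicit false

/-! The deterministic part of the construction of helper W166 for a general graph `H` with two
centres. -/

namespace Pool.Agent.Y680.CT

open Finset Classical Pool.Agent.W166.Gnp

/-- whenever the vertices of `H` are divided into classes `0`, `1`, `2` such that `1`, `2` are
independent, there are no edges between `0` and `1` and every vertex of class `2` has at most one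
neighbour in class `0`, the two centres are in class `0` -/
def Struct {ι : Type} (H : SimpleGraph ι) (t₁ t₂ : ι) : Prop :=
  ∀ c : ι → ℕ, (∀ a, c a ≤ 2) →
    (∀ a b, H.Adj a b → ¬ (c a = 0 ∧ c b = 1) ∧ ¬ (c a = 1 ∧ c b = 0) ∧
      ¬ (c a = 1 ∧ c b = 1) ∧ ¬ (c a = 2 ∧ c b = 2)) →
    (∀ y a b, a ≠ b → H.Adj y a → H.Adj y b → ¬ (c y = 2 ∧ c a = 0 ∧ c b = 0)) →
    c t₁ = 0 ∧ c t₂ = 0

variable {ι : Type}

variable {n : ℕ}

/-- copies of `H` in `S` -/
def isCopy (H : SimpleGraph ι) (S : Finset (Sym2 (Fin n))) (φ : ι → Fin n) : Prop :=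
  Function.Injective φ ∧ ∀ a b, H.Adj a b → s(φ a, φ b) ∈ S

/-- `x` is the only neighbour of `y` in `X` -/
def uniqN (S : Finset (Sym2 (Fin n))) (X : Finset (Fin n)) (y x : Fin n) : Prop :=
  ∀ x' ∈ X, s(y, x') ∈ S → x' = x

/-- the graph of the construction; the class of `v` is `X`, `Y2` or the rest -/
noncomputable def GB (H : SimpleGraph ι) (t₁ t₂ l₀ : ι) (S : Finset (Sym2 (Fin n))) (X Y2 : Finset (Fin n)) : SimpleGraph (Fin n) where
  Adj u v := u ≠ v ∧ s(u, v) ∈ S ∧ ((u ∈ X ∧ v ∈ X) ∨ (u ∈ X ∧ v ∈ Y2 ∧ uniqN S X v u) ∨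
    (v ∈ X ∧ u ∈ Y2 ∧ uniqN S X u v) ∨ (u ∉ X ∧ u ∉ Y2 ∧ v ∈ Y2) ∨ (v ∉ X ∧ v ∉ Y2 ∧ u ∈ Y2)) ∧
    ¬ ∃ φ, isCopy H S φ ∧ φ t₁ ∈ X ∧ φ t₂ ∈ X ∧ s(φ t₁, φ l₀) = s(u, v)
  symm := ⟨by
    intro u v h
    refine ⟨h.1.symm, by rw [Sym2.eq_swap]; exact h.2.1, ?_, by rw [Sym2.eq_swap (a := v)]; exact h.2.2.2⟩
    rcases h.2.2.1 with h | h | h | h | h
    · exact Or.inl ⟨h.2, h.1⟩
    · exact Or.inr (Or.inr (Or.inl h))
    · exact Or.inr (Or.inl h)
    · exact Or.inr (Or.inr (Or.inr (Or.inr h)))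
    · exact Or.inr (Or.inr (Or.inr (Or.inl h)))⟩
  loopless := ⟨fun _ h => h.1 rfl⟩

theorem GB_free {H : SimpleGraph ι} {t₁ t₂ l₀ : ι} (hH : Struct H t₁ t₂) (hl : H.Adj t₁ l₀) (S : Finset (Sym2 (Fin n))) (X Y2 : Finset (Fin n)) (hd : Disjoint X Y2) :
    ¬ H.IsContained (GB H t₁ t₂ l₀ S X Y2) := by
  rintro ⟨f⟩
  have hcopy : isCopy H S f := by
    refine ⟨f.injective, ?_⟩
    intro a b hab
    have h3 : (GB H t₁ t₂ l₀ S X Y2).Adj (f a) (f b) := f.toHom.map_adj hab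
    exact h3.2.1
  have hadj : ∀ a b, H.Adj a b → (GB H t₁ t₂ l₀ S X Y2).Adj (f a) (f b) := fun a b hab => f.toHom.map_adj hab
  let c : ι → ℕ := fun a => if f a ∈ X then 0 else if f a ∈ Y2 then 2 else 1
  have hc0 : ∀ a, c a = 0 ↔ f a ∈ X := by
    intro a; simp only [c]; split_ifs <;> simp_all
  have hc1 : ∀ a, c a = 1 ↔ f a ∉ X ∧ f a ∉ Y2 := by
    intro a; simp only [c]; split_ifs <;> simp_all
  have hc2 : ∀ a, c a = 2 → f a ∈ Y2 ∧ f a ∉ X := by
    intro a; simp only [c]; split_ifs <;> simp_all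
  have hdis : ∀ v, v ∈ X → v ∉ Y2 := fun v hv hv' => disjoint_left.mp hd hv hv'
  have hst := hH c (by intro a; simp only [c]; split_ifs <;> omega) (by
    intro a b hab
    have h := (hadj a b hab).2.2.1
    refine ⟨?_, ?_, ?_, ?_⟩
    · rintro ⟨ha, hb⟩
      rw [hc0] at ha
      rw [hc1] at hb
      have := hdis _ ha
      tauto
    · rintro ⟨ha, hb⟩
      rw [hc1] at ha
      rw [hc0] at hb
      have := hdis _ hb
      tauto
    · rintro ⟨ha, hb⟩
      rw [hc1] at ha hb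
      tauto
    · rintro ⟨ha, hb⟩
      have ha' := hc2 a ha
      have hb' := hc2 b hb
      tauto) (by
    rintro y a b hab hya hyb ⟨hy, ha, hb⟩
    rw [hc0] at ha hb
    have hy' := hc2 y hy
    have h := (hadj y a hya).2.2.1
    have hu : uniqN S X (f y) (f a) := by
      have := hdis _ ha
      tauto
    apply hab
    apply f.injective
    exact (hu (f b) hb (hadj y b hyb).2.1).symm)
  exact (hadj t₁ l₀ hl).2.2.2 ⟨f, hcopy, (hc0 t₁).mp hst.1, (hc0 t₂).mp hst.2, rfl⟩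

theorem GB_spec [Fintype ι] {H : SimpleGraph ι} {t₁ t₂ l₀ : ι} (hH : Struct H t₁ t₂) (hl : H.Adj t₁ l₀) {S : Finset (Sym2 (Fin n))} (hS : S ⊆ allE n) (W X Y1 Y2 : Finset (Fin n))
    (hXW : X ⊆ W) (hY1 : Disjoint Y1 W) (hY2 : Disjoint Y2 W) (hY : Disjoint Y1 Y2)
    (hrem : ∀ φ, isCopy H S φ → φ t₁ ∈ X → φ t₂ ∈ X → φ l₀ ∈ X → False) (C : ℕ)
    (hcol : ¬ ((SimpleGraph.fromEdgeSet (S : Set (Sym2 (Fin n)))).induce (X : Set (Fin n))).Colorable C)
    (D B1 B2 : ℝ) (hB1 : 0 ≤ B1) (hB2 : 0 ≤ B2)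
    (hdeg1 : ∀ v : Fin n, D ≤ ((Y1.filter (fun y => s(v, y) ∈ S)).card : ℝ))
    (hdeg2 : ∀ v : Fin n, D ≤ ((Y2.filter (fun y => s(v, y) ∈ S)).card : ℝ))
    (hpriv : ∀ x ∈ X, ((Y2.filter (fun y => s(x, y) ∈ S ∧ ∃ x' ∈ X.erase x, s(y, x') ∈ S)).card : ℝ)
      ≤ B1)
    (hcop : ∀ x ∈ X, ((univ.filter (fun φ : ι → Fin n => isCopy H S φ ∧ φ t₁ = x ∧ φ t₂ ∈ W)).card : ℝ)
      ≤ B2) :
    ∃ G : SimpleGraph (Fin n), G ≤ SimpleGraph.fromEdgeSet (S : Set (Sym2 (Fin n))) ∧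
      ¬ H.IsContained G ∧ (∀ v, D - B1 - B2 ≤ ((G.neighborSet v).ncard : ℝ)) ∧
      ¬ G.Colorable C := by
  have hXY1 : ∀ v, v ∈ X → v ∉ Y1 := fun v hv hv' => disjoint_left.mp hY1 hv' (hXW hv)
  have hXY2 : ∀ v, v ∈ X → v ∉ Y2 := fun v hv hv' => disjoint_left.mp hY2 hv' (hXW hv)
  have hY12 : ∀ v, v ∈ Y1 → v ∉ Y2 := fun v hv hv' => disjoint_left.mp hY hv hv'
  have hne : ∀ v y, s(v, y) ∈ S → v ≠ y := fun v y hy => mem_allE.mp (hS hy)
  -- edges without an end in `X` are not removed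
  have hkeep : ∀ u v, u ∉ X → v ∉ X →
      ¬ ∃ φ, isCopy H S φ ∧ φ t₁ ∈ X ∧ φ t₂ ∈ X ∧ s(φ t₁, φ l₀) = s(u, v) := by
    rintro u v hu hv ⟨φ, -, h0, -, h⟩
    rw [Sym2.eq_iff] at h
    rcases h with h | h
    · exact hu (h.1 ▸ h0)
    · exact hv (h.1 ▸ h0)
  refine ⟨GB H t₁ t₂ l₀ S X Y2, ?_, GB_free hH hl S X Y2 (disjoint_left.mpr hXY2), ?_, ?_⟩
  · intro u v h
    rw [SimpleGraph.fromEdgeSet_adj]
    exact ⟨h.2.1, h.1⟩
  · intro v
    rw [Set.ncard_eq_toFinset_card']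
    by_cases hvX : v ∈ X
    · have h2 : Y2.filter (fun y => s(v, y) ∈ S) ⊆ ((GB H t₁ t₂ l₀ S X Y2).neighborSet v).toFinset ∪
          (Y2.filter (fun y => s(v, y) ∈ S ∧ ∃ x' ∈ X.erase v, s(y, x') ∈ S) ∪
          (univ.filter (fun φ : ι → Fin n => isCopy H S φ ∧ φ t₁ = v ∧ φ t₂ ∈ W)).image
            (fun φ => φ l₀)) := by
        intro y hy
        rw [mem_filter] at hy
        rw [mem_union, mem_union]
        by_cases hu : uniqN S X y v
        · by_cases hr : ∃ φ, isCopy H S φ ∧ φ t₁ ∈ X ∧ φ t₂ ∈ X ∧ s(φ t₁, φ l₀) = s(v, y)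
          · right; right
            obtain ⟨φ, hφ, h0, h1, h⟩ := hr
            rw [mem_image]
            rw [Sym2.eq_iff] at h
            have hyX : y ∉ X := fun h' => hXY2 y h' hy.1
            rcases h with h | h
            · exact ⟨φ, by rw [mem_filter]; exact ⟨mem_univ _, hφ, h.1, hXW h1⟩, h.2⟩
            · exact absurd (h.1 ▸ h0) hyX
          · left
            rw [Set.mem_toFinset, SimpleGraph.mem_neighborSet]
            exact ⟨hne v y hy.2, hy.2, Or.inr (Or.inl ⟨hvX, hy.1, hu⟩), hr⟩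
        · right; left
          rw [mem_filter]
          refine ⟨hy.1, hy.2, ?_⟩
          unfold uniqN at hu
          push Not at hu
          obtain ⟨x', hx', h1, h2⟩ := hu
          exact ⟨x', by rw [mem_erase]; exact ⟨h2, hx'⟩, h1⟩
      have h3 := card_le_card h2
      have h4 := card_union_le ((GB H t₁ t₂ l₀ S X Y2).neighborSet v).toFinset
        (Y2.filter (fun y => s(v, y) ∈ S ∧ ∃ x' ∈ X.erase v, s(y, x') ∈ S) ∪
          (univ.filter (fun φ : ι → Fin n => isCopy H S φ ∧ φ t₁ = v ∧ φ t₂ ∈ W)).image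
            (fun φ => φ l₀))
      have h5 := card_union_le (Y2.filter (fun y => s(v, y) ∈ S ∧ ∃ x' ∈ X.erase v, s(y, x') ∈ S))
          ((univ.filter (fun φ : ι → Fin n => isCopy H S φ ∧ φ t₁ = v ∧ φ t₂ ∈ W)).image
            (fun φ => φ l₀))
      have h6 : ((univ.filter (fun φ : ι → Fin n => isCopy H S φ ∧ φ t₁ = v ∧ φ t₂ ∈ W)).image
            (fun φ => φ l₀)).card ≤
          (univ.filter (fun φ : ι → Fin n => isCopy H S φ ∧ φ t₁ = v ∧ φ t₂ ∈ W)).card :=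
        card_image_le
      have h7 : ((Y2.filter (fun y => s(v, y) ∈ S)).card : ℝ) ≤
          (((GB H t₁ t₂ l₀ S X Y2).neighborSet v).toFinset.card : ℝ) +
          (((Y2.filter (fun y => s(v, y) ∈ S ∧ ∃ x' ∈ X.erase v, s(y, x') ∈ S)).card : ℝ) +
          ((univ.filter (fun φ : ι → Fin n => isCopy H S φ ∧ φ t₁ = v ∧ φ t₂ ∈ W)).card : ℝ)) := by
        have := h3.trans (h4.trans (Nat.add_le_add_left (h5.trans (Nat.add_le_add_left h6 _)) _))
        exact_mod_cast this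
      have h8 := hdeg2 v
      have h9 := hpriv v hvX
      have h10 := hcop v hvX
      linarith
    · by_cases hvY : v ∈ Y2
      · have h2 : Y1.filter (fun y => s(v, y) ∈ S) ⊆ ((GB H t₁ t₂ l₀ S X Y2).neighborSet v).toFinset := by
          intro y hy
          rw [mem_filter] at hy
          rw [Set.mem_toFinset, SimpleGraph.mem_neighborSet]
          have hyX : y ∉ X := fun h => hXY1 y h hy.1
          exact ⟨hne v y hy.2, hy.2, Or.inr (Or.inr (Or.inr (Or.inr ⟨hyX, hY12 y hy.1, hvY⟩))),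
            hkeep v y hvX hyX⟩
        have h3 : ((Y1.filter (fun y => s(v, y) ∈ S)).card : ℝ) ≤
            (((GB H t₁ t₂ l₀ S X Y2).neighborSet v).toFinset.card : ℝ) := by exact_mod_cast card_le_card h2
        have h8 := hdeg1 v
        linarith
      · have h2 : Y2.filter (fun y => s(v, y) ∈ S) ⊆ ((GB H t₁ t₂ l₀ S X Y2).neighborSet v).toFinset := by
          intro y hy
          rw [mem_filter] at hy
          rw [Set.mem_toFinset, SimpleGraph.mem_neighborSet]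
          have hyX : y ∉ X := fun h => hXY2 y h hy.1
          exact ⟨hne v y hy.2, hy.2, Or.inr (Or.inr (Or.inr (Or.inl ⟨hvX, hvY, hy.1⟩))),
            hkeep v y hvX hyX⟩
        have h3 : ((Y2.filter (fun y => s(v, y) ∈ S)).card : ℝ) ≤
            (((GB H t₁ t₂ l₀ S X Y2).neighborSet v).toFinset.card : ℝ) := by exact_mod_cast card_le_card h2
        have h8 := hdeg2 v
        linarith
  · intro hc
    apply hcol
    obtain ⟨c⟩ := hc
    refine ⟨SimpleGraph.Coloring.mk (fun x => c x.1) ?_⟩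
    intro a b hab
    apply c.valid
    rw [SimpleGraph.comap_adj, SimpleGraph.fromEdgeSet_adj] at hab
    refine ⟨hab.2, hab.1, Or.inl ⟨a.2, b.2⟩, ?_⟩
    rintro ⟨φ, hφ, h0, h1, h⟩
    rw [Sym2.eq_iff] at h
    rcases h with h | h
    · exact hrem φ hφ h0 h1 (h.2 ▸ b.2)
    · exact hrem φ hφ h0 h1 (h.2 ▸ a.2)

end Pool.Agent.Y680.CT
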