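import Pool.Agent.Y680.CT.Det

set_option autoImplicit false

/-! The graphs `H_N`: two adjacent centres with `N` leaves each, `N` cloud vertices, and all edges
between the leaves and the cloud. -/

namespace Pool.Agent.Y680.CT

open Finset

theorem struct_core {V : Type} {H : SimpleGraph V} {t0 t1 l2 l3 l4 l5 k7 k8 : V}
    (e01 : H.Adj t0 t1) (e02 : H.Adj t0 l2) (e03 : H.Adj t0 l3) (e14 : H.Adj t1 l4)
    (e15 : H.Adj t1 l5) (e27 : H.Adj l2 k7) (e28 : H.Adj l2 k8) (e37 : H.Adj l3 k7)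
    (e47 : H.Adj l4 k7) (e48 : H.Adj l4 k8) (e57 : H.Adj l5 k7) (n78 : k7 ≠ k8) (n12 : t1 ≠ l2)
    (n45 : l4 ≠ l5) (n23 : l2 ≠ l3) (n04 : t0 ≠ l4) : Struct H t0 t1 := by
  intro c hc h1 h2
  have k1 : ∀ a b, H.Adj a b → c a = 1 → c b = 2 := by
    intro a b hab h
    have e := h1 a b hab
    have := hc b
    omega
  have k2 : ∀ a b, H.Adj a b → c a = 2 → c b ≠ 2 := by
    intro a b hab h h'
    exact (h1 a b hab).2.2.2 ⟨h, h'⟩
  have k0 : ∀ a b, H.Adj a b → c a = 0 → c b ≠ 1 := by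
    intro a b hab h h'
    exact (h1 a b hab).1 ⟨h, h'⟩
  have s1 : c t0 ≠ 1 := by
    intro h
    have a1 : c t1 = 2 := k1 _ _ e01 h
    have a2 : c l2 = 2 := k1 _ _ e02 h
    have a7 : c k7 ≠ 2 := k2 _ _ e27 a2
    have a8 : c k8 ≠ 2 := k2 _ _ e28 a2
    have a4 : c l4 ≠ 2 := k2 _ _ e14 a1
    have b7 : c k7 = 0 := by
      have d1 : c k7 ≠ 1 := fun h' => a4 (k1 _ _ e47.symm h')
      have := hc k7
      omega
    have b8 : c k8 = 0 := by
      have d1 : c k8 ≠ 1 := fun h' => a4 (k1 _ _ e48.symm h')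
      have := hc k8
      omega
    exact h2 _ _ _ n78 e27 e28 ⟨a2, b7, b8⟩
  have s2 : c t0 ≠ 2 := by
    intro h
    have a1 : c t1 ≠ 2 := k2 _ _ e01 h
    have a2 : c l2 ≠ 2 := k2 _ _ e02 h
    have a3 : c l3 ≠ 2 := k2 _ _ e03 h
    rcases (show c t1 = 0 ∨ c t1 = 1 by have := hc t1; omega) with h' | h'
    · have a2 : c l2 = 1 := by
        have d1 : c l2 ≠ 0 := fun h'' => h2 _ _ _ n12 e01 e02 ⟨h, h', h''⟩
        have := hc l2
        omega
      have a7 : c k7 = 2 := k1 _ _ e27 a2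
      have a4 : c l4 = 0 := by
        have d1 : c l4 ≠ 1 := k0 _ _ e14 h'
        have d2 : c l4 ≠ 2 := k2 _ _ e47.symm a7
        have := hc l4
        omega
      have a5 : c l5 = 0 := by
        have d1 : c l5 ≠ 1 := k0 _ _ e15 h'
        have d2 : c l5 ≠ 2 := k2 _ _ e57.symm a7
        have := hc l5
        omega
      exact h2 _ _ _ n45 e47.symm e57.symm ⟨a7, a4, a5⟩
    · have a4 : c l4 = 2 := k1 _ _ e14 h'
      have a7 : c k7 ≠ 2 := k2 _ _ e47 a4
      have d : c l2 = 1 ∨ c l3 = 1 := by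
        have d1 : ¬ (c l2 = 0 ∧ c l3 = 0) := fun h'' =>
          h2 _ _ _ n23 e02 e03 ⟨h, h''.1, h''.2⟩
        have := hc l2
        have := hc l3
        omega
      rcases d with d | d
      · exact a7 (k1 _ _ e27 d)
      · exact a7 (k1 _ _ e37 d)
  have s3 : c t0 = 0 := by
    have := hc t0
    omega
  refine ⟨s3, ?_⟩
  have s4 : c t1 ≠ 1 := k0 _ _ e01 s3
  have s5 : c t1 ≠ 2 := by
    intro h
    have a4 : c l4 = 1 := by
      have d1 : c l4 ≠ 0 := fun h'' => h2 _ _ _ n04 e01.symm e14 ⟨h, s3, h''⟩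
      have d2 : c l4 ≠ 2 := k2 _ _ e14 h
      have := hc l4
      omega
    have a7 : c k7 = 2 := k1 _ _ e47 a4
    have a2 : c l2 = 0 := by
      have d1 : c l2 ≠ 1 := k0 _ _ e02 s3
      have d2 : c l2 ≠ 2 := k2 _ _ e27.symm a7
      have := hc l2
      omega
    have a3 : c l3 = 0 := by
      have d1 : c l3 ≠ 1 := k0 _ _ e03 s3
      have d2 : c l3 ≠ 2 := k2 _ _ e37.symm a7
      have := hc l3
      omega
    exact h2 _ _ _ n23 e27.symm e37.symm ⟨a7, a2, a3⟩
  have := hc t1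
  omega

/-- the vertices of `H_N`: two centres, the `2 N` leaves, the `N` cloud vertices -/
abbrev HV (N : ℕ) : Type := Bool ⊕ ((Bool × Fin N) ⊕ Fin N)

/-- adjacency in `H_N` -/
def hadj (N : ℕ) : HV N → HV N → Prop
  | Sum.inl b, Sum.inl c => b ≠ c
  | Sum.inl b, Sum.inr (Sum.inl l) => b = l.1
  | Sum.inr (Sum.inl l), Sum.inl b => b = l.1
  | Sum.inr (Sum.inl _), Sum.inr (Sum.inr _) => True
  | Sum.inr (Sum.inr _), Sum.inr (Sum.inl _) => True
  | _, _ => False

/-- the graph `H_N` -/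
def HN (N : ℕ) : SimpleGraph (HV N) where
  Adj := hadj N
  symm := ⟨by
    rintro (b | l | j) (c | l' | j') h
    · exact fun e => h e.symm
    · exact h
    · exact h
    · exact h
    · exact h
    · exact h
    · exact h
    · exact h
    · exact h⟩
  loopless := ⟨by
    rintro (b | l | j) h
    · exact h rfl
    · exact h
    · exact h⟩

variable {N : ℕ}

/-- a centre -/
def tt (b : Bool) : HV N := Sum.inl b
/-- a leaf -/
def lf (l : Bool × Fin N) : HV N := Sum.inr (Sum.inl l)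
/-- a cloud vertex -/
def cl (j : Fin N) : HV N := Sum.inr (Sum.inr j)

theorem adj_tt (b c : Bool) : (HN N).Adj (tt b) (tt c) ↔ b ≠ c := Iff.rfl
theorem adj_tl (b : Bool) (l : Bool × Fin N) : (HN N).Adj (tt b) (lf l) ↔ b = l.1 := Iff.rfl
theorem adj_lt (b : Bool) (l : Bool × Fin N) : (HN N).Adj (lf l) (tt b) ↔ b = l.1 := Iff.rfl
theorem adj_lc (l : Bool × Fin N) (j : Fin N) : (HN N).Adj (lf l) (cl j) := trivial
theorem adj_cl (l : Bool × Fin N) (j : Fin N) : (HN N).Adj (cl j) (lf l) := trivial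

theorem struct_HN (hN : 2 ≤ N) : Struct (HN N) (tt false) (tt true) := by
  have n01 : (⟨0, by omega⟩ : Fin N) ≠ ⟨1, by omega⟩ := by
    intro h
    have := congrArg Fin.val h
    simp at this
  refine struct_core (l2 := lf (false, ⟨0, by omega⟩)) (l3 := lf (false, ⟨1, by omega⟩))
    (l4 := lf (true, ⟨0, by omega⟩)) (l5 := lf (true, ⟨1, by omega⟩))
    (k7 := cl ⟨0, by omega⟩) (k8 := cl ⟨1, by omega⟩) ?_ rfl rfl rfl rfl trivial trivial trivial
    trivial trivial trivial ?_ ?_ ?_ ?_ ?_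
  · rw [adj_tt]; decide
  · exact fun h => n01 (Sum.inr.inj (Sum.inr.inj h))
  · exact fun h => nomatch h
  · exact fun h => n01 (congrArg Prod.snd (Sum.inl.inj (Sum.inr.inj h)))
  · exact fun h => n01 (congrArg Prod.snd (Sum.inl.inj (Sum.inr.inj h)))
  · exact fun h => nomatch h

/-! ### counting edges -/

/-- names for the edges -/
abbrev EN (N : ℕ) : Type := Unit ⊕ ((Bool × Fin N) ⊕ ((Bool × Fin N) × Fin N))

/-- first end -/
def src : EN N → HV N
  | Sum.inl _ => tt false
  | Sum.inr (Sum.inl l) => tt l.1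
  | Sum.inr (Sum.inr q) => lf q.1

/-- second end -/
def tgt : EN N → HV N
  | Sum.inl _ => tt true
  | Sum.inr (Sum.inl l) => lf l
  | Sum.inr (Sum.inr q) => cl q.2

/-- the edges -/
def fe (e : EN N) : Sym2 (HV N) := s(src e, tgt e)

theorem fe_adj (e : EN N) : (HN N).Adj (src e) (tgt e) := by
  rcases e with u | l | q
  · show false ≠ true
    decide
  · rfl
  · trivial

theorem fe_surj {x y : HV N} (h : (HN N).Adj x y) :
    ∃ e : EN N, (src e = x ∧ tgt e = y) ∨ (src e = y ∧ tgt e = x) := by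
  rcases x with b | l | j
  · rcases y with c | l' | j'
    · have h' : b ≠ c := h
      refine ⟨Sum.inl (), ?_⟩
      cases b <;> cases c
      · exact absurd rfl h'
      · exact Or.inl ⟨rfl, rfl⟩
      · exact Or.inr ⟨rfl, rfl⟩
      · exact absurd rfl h'
    · have h' : b = l'.1 := h
      subst h'
      exact ⟨Sum.inr (Sum.inl l'), Or.inl ⟨rfl, rfl⟩⟩
    · exact absurd h id
  · rcases y with c | l' | j'
    · have h' : c = l.1 := h
      subst h'
      exact ⟨Sum.inr (Sum.inl l), Or.inr ⟨rfl, rfl⟩⟩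
    · exact absurd h id
    · exact ⟨Sum.inr (Sum.inr (l, j')), Or.inl ⟨rfl, rfl⟩⟩
  · rcases y with c | l' | j'
    · exact absurd h id
    · exact ⟨Sum.inr (Sum.inr (l', j)), Or.inr ⟨rfl, rfl⟩⟩
    · exact absurd h id

theorem fe_inj : Function.Injective (fe : EN N → Sym2 (HV N)) := by
  rintro (u | l | q) (u' | l' | q') h
  all_goals simp only [fe, Sym2.eq_iff, src, tgt, tt, lf, cl] at h
  · rfl
  · simp at h
  · simp at h
  · simp at h
  · simp at h
    rw [h.2]
  · simp at h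
  · simp at h
  · simp at h
  · simp at h
    rw [Prod.ext_iff.2 h]

theorem edges_HN : (HN N).edgeSet.ncard = 1 + (2 * N + 2 * N * N) := by
  have h1 : (HN N).edgeSet = fe '' (Set.univ : Set (EN N)) := by
    ext e
    induction e with
    | _ x y =>
      rw [SimpleGraph.mem_edgeSet, Set.image_univ, Set.mem_range]
      constructor
      · intro h
        obtain ⟨e, he | he⟩ := fe_surj h
        · exact ⟨e, by rw [fe, he.1, he.2]⟩
        · exact ⟨e, by rw [fe, he.1, he.2, Sym2.eq_swap]⟩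
      · rintro ⟨e, he⟩
        have h := fe_adj e
        rw [fe, Sym2.eq_iff] at he
        rcases he with he | he
        · rw [← he.1, ← he.2]; exact h
        · rw [← he.1, ← he.2]; exact h.symm
  rw [h1, Set.ncard_image_of_injective _ fe_inj, Set.ncard_univ, Nat.card_eq_fintype_card]
  simp [Fintype.card_sum, Fintype.card_prod]

theorem card_HV : Fintype.card (HV N) = 3 * N + 2 := by
  simp [Fintype.card_sum, Fintype.card_prod]
  ring

end Pool.Agent.Y680.CT
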