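import Pool.Agent.W166.Gnp.ProbB
import Pool.Agent.Y680.CT.Det

set_option autoImplicit false
set_option linter.unusedSectionVars false

/-! The probabilistic part of the construction of helper W166 for a general graph `H`. -/

namespace Pool.Agent.Y680.CT

open Finset Classical
open Pool.Agent.W166.Gnp hiding isCopy uniqN GB GB_free GB_spec Da Db prod_Da prod_Db RemA RemB
  RemA_bound RemB_bound

variable {n : ℕ} {ι : Type} [Fintype ι]

/-- domains for the copies with `t₁`, `t₂` and a leaf at `t₁` in `W` -/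
noncomputable def Da (t₁ t₂ l₀ : ι) (W : Finset (Fin n)) (i : ι) : Finset (Fin n) :=
  if i = t₁ ∨ i = t₂ ∨ i = l₀ then W else univ

/-- domains for the copies with `t₁ = x` and `t₂` in `W` -/
noncomputable def Db (t₁ t₂ : ι) (W : Finset (Fin n)) (x : Fin n) (i : ι) : Finset (Fin n) :=
  if i = t₁ then {x} else if i = t₂ then W else univ

theorem prod_Da {t₁ t₂ l₀ : ι} (h12 : t₁ ≠ t₂) (h1 : t₁ ≠ l₀) (h2 : t₂ ≠ l₀) {v : ℕ}
    (hv : Fintype.card ι = v + 3) (W : Finset (Fin n)) :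
    (∏ i, ((Da t₁ t₂ l₀ W i).card : ℝ)) = (W.card : ℝ) ^ 3 * n ^ v := by
  have hs : ({t₁, t₂, l₀} : Finset ι).card = 3 := by
    rw [card_insert_of_notMem (by simp [h12, h1]), card_pair h2]
  rw [← Finset.prod_mul_prod_compl ({t₁, t₂, l₀} : Finset ι)]
  congr 1
  · rw [← hs, ← prod_const]
    apply prod_congr rfl
    intro i hi
    simp only [mem_insert, mem_singleton] at hi
    rw [Da, if_pos hi]
  · have hc : (({t₁, t₂, l₀} : Finset ι)ᶜ).card = v := by
      rw [card_compl, hs, hv]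
      omega
    rw [← hc, ← prod_const]
    apply prod_congr rfl
    intro i hi
    simp only [mem_compl, mem_insert, mem_singleton] at hi
    rw [Da, if_neg hi]
    simp

theorem prod_Db {t₁ t₂ : ι} (h12 : t₁ ≠ t₂) {v : ℕ}
    (hv : Fintype.card ι = v + 3) (W : Finset (Fin n)) (x : Fin n) :
    (∏ i, ((Db t₁ t₂ W x i).card : ℝ)) = (W.card : ℝ) * n ^ (v + 1) := by
  rw [← Finset.prod_mul_prod_compl ({t₁, t₂} : Finset ι)]
  congr 1
  · rw [prod_pair h12]
    simp [Db, h12.symm]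
  · have hc : (({t₁, t₂} : Finset ι)ᶜ).card = v + 1 := by
      rw [card_compl, card_pair h12, hv]
      omega
    rw [← hc, ← prod_const]
    apply prod_congr rfl
    intro i hi
    simp only [mem_compl, mem_insert, mem_singleton, not_or] at hi
    rw [Db, if_neg hi.1, if_neg hi.2]
    simp

/-- first set to be avoided -/
noncomputable def RemA (H : SimpleGraph ι) (t₁ t₂ l₀ : ι) (W : Finset (Fin n))
    (S : Finset (Sym2 (Fin n))) : Finset (Fin n) :=
  (copies H (Da t₁ t₂ l₀ W) S).image (fun φ => φ t₁)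

/-- second set to be avoided -/
noncomputable def RemB (H : SimpleGraph ι) (t₁ t₂ : ι) (W : Finset (Fin n)) (b : ℝ)
    (S : Finset (Sym2 (Fin n))) : Finset (Fin n) :=
  W.filter (fun x => b < ((copies H (Db t₁ t₂ W x) S).card : ℝ))

theorem edges_eq (H : SimpleGraph ι) {e : ℕ} (he : H.edgeSet.ncard = e) :
    H.edgeFinset.card = e := by
  rw [← he, Set.ncard_eq_toFinset_card']
  rfl

theorem RemA_bound {H : SimpleGraph ι} {t₁ t₂ l₀ : ι} (h12 : t₁ ≠ t₂) (hl1 : t₁ ≠ l₀)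
    (hl2 : t₂ ≠ l₀) {v e : ℕ} (hv : Fintype.card ι = v + 3) (he : H.edgeSet.ncard = e + 2)
    (W : Finset (Fin n)) {p : ℝ} (h0 : 0 ≤ p) (h1 : p ≤ 1) (a : ℝ) (ha : 0 < a) :
    Pr (allE n) p (fun S => a ≤ ((RemA H t₁ t₂ l₀ W S).card : ℝ)) ≤
      (W.card : ℝ) ^ 3 * n ^ v * p ^ (e + 2) / a := by
  have h2 : Pr (allE n) p (fun S => a ≤ ((RemA H t₁ t₂ l₀ W S).card : ℝ)) ≤
      Pr (allE n) p (fun S => a ≤ ((copies H (Da t₁ t₂ l₀ W) S).card : ℝ)) := by
    apply Pr_mono h0 h1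
    intro S _ h
    refine h.trans ?_
    exact_mod_cast (card_image_le : (RemA H t₁ t₂ l₀ W S).card ≤ _)
  refine h2.trans (Pr_markov h0 h1 _ (fun S _ => Nat.cast_nonneg _) _ _ ha ?_)
  have h3 := copies_expect H (Da t₁ t₂ l₀ W) h0 (E := allE n)
  rw [edges_eq H he, prod_Da h12 hl1 hl2 hv] at h3
  exact h3

theorem RemB_bound {H : SimpleGraph ι} {t₁ t₂ : ι} (h12 : t₁ ≠ t₂) {v e : ℕ}
    (hv : Fintype.card ι = v + 3) (he : H.edgeSet.ncard = e + 2)
    (W : Finset (Fin n)) {p : ℝ} (h0 : 0 ≤ p) (h1 : p ≤ 1) (b a : ℝ) (hb : 0 < b)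
    (ha : 0 < a) :
    Pr (allE n) p (fun S => a ≤ ((RemB H t₁ t₂ W b S).card : ℝ)) ≤
      (W.card : ℝ) ^ 2 * n ^ (v + 1) * p ^ (e + 2) / (a * b) := by
  have h2 : Pr (allE n) p (fun S => a ≤ ((RemB H t₁ t₂ W b S).card : ℝ)) ≤
      Pr (allE n) p (fun S => a * b ≤ ∑ x ∈ W, ((copies H (Db t₁ t₂ W x) S).card : ℝ)) := by
    apply Pr_mono h0 h1
    intro S _ h
    calc a * b ≤ (RemB H t₁ t₂ W b S).card * b := mul_le_mul_of_nonneg_right h hb.le
      _ = ∑ x ∈ RemB H t₁ t₂ W b S, b := by rw [sum_const, nsmul_eq_mul]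
      _ ≤ ∑ x ∈ RemB H t₁ t₂ W b S, ((copies H (Db t₁ t₂ W x) S).card : ℝ) := by
          apply sum_le_sum
          intro x hx
          simp only [RemB, mem_filter] at hx
          exact hx.2.le
      _ ≤ ∑ x ∈ W, ((copies H (Db t₁ t₂ W x) S).card : ℝ) := by
          apply sum_le_sum_of_subset_of_nonneg (filter_subset _ _)
          intro _ _ _
          exact Nat.cast_nonneg _
  refine h2.trans (Pr_markov h0 h1 _ (fun S _ => sum_nonneg (fun _ _ => Nat.cast_nonneg _)) _ _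
    (mul_pos ha hb) ?_)
  rw [Ex_sum]
  have h3 : ∀ x ∈ W, Ex (allE n) p (fun S => ((copies H (Db t₁ t₂ W x) S).card : ℝ)) ≤
      (W.card : ℝ) * n ^ (v + 1) * p ^ (e + 2) := by
    intro x _
    have h3 := copies_expect H (Db t₁ t₂ W x) h0 (E := allE n)
    rw [edges_eq H he, prod_Db h12 hv] at h3
    exact h3
  refine (sum_le_card_nsmul _ _ _ h3).trans (le_of_eq ?_)
  rw [nsmul_eq_mul]
  ring

end Pool.Agent.Y680.CT
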